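import Pool.Agent.W249.PP.Ari2

/-!
# PP-ARI
-/

set_option autoImplicit false

namespace Pool.Agent.W249.PP

open Finset Pool.Agent.W192.PP MeasureTheory

/-- the weight -/
noncomputable def gf (c L : ℝ) (t : ℝ) : ℝ :=
  -Real.sin (Real.pi * c + 2 * Real.pi * c * (Real.log t / L))

/-- its derivative -/
noncomputable def gd (c L : ℝ) (t : ℝ) : ℝ :=
  -Real.cos (Real.pi * c + 2 * Real.pi * c * (Real.log t / L)) * (2 * Real.pi * c * (t⁻¹ / L))

theorem gf_deriv {c L t : ℝ} (ht : 0 < t) : HasDerivAt (gf c L) (gd c L t) t := by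
  have h1 : HasDerivAt (fun t => Real.pi * c + 2 * Real.pi * c * (Real.log t / L))
      (2 * Real.pi * c * (t⁻¹ / L)) t :=
    (((Real.hasDerivAt_log ht.ne').div_const L).const_mul _).const_add _
  have h2 := (h1.sin).neg
  unfold gf gd
  have h3 : -Real.cos (Real.pi * c + 2 * Real.pi * c * (Real.log t / L)) *
      (2 * Real.pi * c * (t⁻¹ / L)) =
      -(Real.cos (Real.pi * c + 2 * Real.pi * c * (Real.log t / L)) *
      (2 * Real.pi * c * (t⁻¹ / L))) := by ring
  rw [h3]
  exact h2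

theorem gd_continuousOn (c L : ℝ) : ContinuousOn (gd c L) (Set.Ioi 0) := by
  unfold gd
  intro t ht
  have ht' : t ≠ 0 := ne_of_gt ht
  refine ContinuousAt.continuousWithinAt ?_
  fun_prop (disch := assumption)

theorem gd_bound {c L t : ℝ} (hc0 : 0 ≤ c) (hc : c ≤ 1) (hL : 0 < L) (ht : 0 < t) :
    |gd c L t| ≤ 2 * Real.pi / L * t⁻¹ := by
  unfold gd
  rw [abs_mul, abs_neg]
  have h1 := Real.abs_cos_le_one (Real.pi * c + 2 * Real.pi * c * (Real.log t / L))
  have hti : 0 < t⁻¹ := inv_pos.2 ht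
  have h2 : |2 * Real.pi * c * (t⁻¹ / L)| = 2 * Real.pi * c * (t⁻¹ / L) :=
    abs_of_nonneg (by positivity)
  rw [h2]
  calc _ ≤ 1 * (2 * Real.pi * c * (t⁻¹ / L)) := mul_le_mul_of_nonneg_right h1 (by positivity)
    _ ≤ 2 * Real.pi * 1 * (t⁻¹ / L) := by
        rw [one_mul]
        have hpi := Real.pi_pos
        gcongr
    _ = 2 * Real.pi / L * t⁻¹ := by ring

theorem gf_bound (c L t : ℝ) : |gf c L t| ≤ 1 := by
  unfold gf
  rw [abs_neg]
  exact Real.abs_sin_le_one _

/-- the main term -/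
noncomputable def II (c x : ℝ) : ℝ :=
  (Real.cos (Real.pi * c + 2 * Real.pi * c * x) - Real.cos (Real.pi * c)) / (2 * Real.pi * c)

theorem II_pos {c x : ℝ} (hc0 : 0 < c) (hc : c < 1) (hx : 0 < x) (hx1 : x ≤ 1 / 2)
    (h : 1 < c * (1 + x)) : 0 < II c x := by
  unfold II
  have hpi := Real.pi_pos
  refine div_pos ?_ (by positivity)
  rw [Real.cos_sub_cos]
  have e1 : (Real.pi * c + 2 * Real.pi * c * x + Real.pi * c) / 2 =
      Real.pi * (c * (1 + x) - 1) + Real.pi := by ring
  have e2 : (Real.pi * c + 2 * Real.pi * c * x - Real.pi * c) / 2 = Real.pi * (c * x) := by ring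
  rw [e1, e2, Real.sin_add_pi]
  have h1 : 0 < Real.sin (Real.pi * (c * (1 + x) - 1)) := by
    refine Real.sin_pos_of_pos_of_lt_pi (mul_pos hpi (by linarith)) ?_
    have : c * (1 + x) - 1 < 1 := by nlinarith
    calc Real.pi * (c * (1 + x) - 1) < Real.pi * 1 := mul_lt_mul_of_pos_left this hpi
      _ = Real.pi := mul_one _
  have h2 : 0 < Real.sin (Real.pi * (c * x)) := by
    refine Real.sin_pos_of_pos_of_lt_pi (mul_pos hpi (mul_pos hc0 hx)) ?_
    have : c * x < 1 := by nlinarith
    calc Real.pi * (c * x) < Real.pi * 1 := mul_lt_mul_of_pos_left this hpi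
      _ = Real.pi := mul_one _
  nlinarith [mul_pos h1 h2]

open Classical in
/-- Abel summation -/
theorem abel {c L z b A δ x : ℝ} (hc0 : 0 < c) (hc : c < 1) (hL : 0 < L) (hb : 1 ≤ b)
    (hbx : Real.log b = x * L)
    (hA : ∀ t : ℝ, 1 ≤ t → t ≤ b → |RR z t - A * (Real.log t / L)| ≤ δ) :
    A * II c x - δ * (1 + 2 * Real.pi * x) ≤ ∑ l ∈ RS z b, (1 / l : ℝ) * gf c L l := by
  have hb0 : 0 < b := by linarith
  have hpi := Real.pi_pos
  have hδ0 : 0 ≤ δ := (abs_nonneg _).trans (hA 1 le_rfl hb)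
  set a : ℕ → ℝ := fun k => if Rough z k then (1 / k : ℝ) else 0 with ha
  have ha0 : a 0 = 0 := by
    rw [ha]
    exact if_neg fun h => h.1 rfl
  have hsum : ∀ (f : ℕ → ℝ) (n : ℕ), ∑ k ∈ Icc 0 n, f k * a k =
      ∑ k ∈ (Icc 1 n).filter (fun l => Rough z l), (1 / k : ℝ) * f k := by
    intro f n
    rw [sum_filter]
    have h1 : Icc 1 n ⊆ Icc 0 n := Icc_subset_Icc_left (Nat.zero_le 1)
    rw [← sum_subset h1]
    · refine sum_congr rfl fun k _ => ?_
      simp only [ha]
      split_ifs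
      · ring
      · ring
    · intro k hk hk'
      have : k = 0 := by
        rw [mem_Icc] at hk hk'
        omega
      rw [this, ha0, mul_zero]
  have hRR : ∀ t : ℝ, ∑ k ∈ Icc 0 ⌊t⌋₊, a k = RR z t := by
    intro t
    have h1 := hsum (fun _ => 1) ⌊t⌋₊
    simp only [one_mul, mul_one] at h1
    rw [h1]
    rfl
  have hIcc : Set.Icc 1 b ⊆ Set.Ioi (0 : ℝ) := fun t ht => lt_of_lt_of_le one_pos ht.1
  have hderiv : ∀ t ∈ Set.Icc 1 b, deriv (gf c L) t = gd c L t := fun t ht =>
    (gf_deriv (hIcc ht)).deriv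
  have hgdc : ContinuousOn (gd c L) (Set.Icc 1 b) := (gd_continuousOn c L).mono hIcc
  have hgdi : IntegrableOn (gd c L) (Set.Icc 1 b) := hgdc.integrableOn_Icc
  have hint : IntegrableOn (deriv (gf c L)) (Set.Icc 1 b) :=
    hgdi.congr_fun (fun t ht => (hderiv t ht).symm) measurableSet_Icc
  have hab := sum_mul_eq_sub_integral_mul₀ a (f := gf c L) ha0 b
    (fun t ht => (gf_deriv (hIcc ht)).differentiableAt) hint
  have hS : ∑ l ∈ RS z b, (1 / l : ℝ) * gf c L l = ∑ k ∈ Icc 0 ⌊b⌋₊, gf c L k * a k := by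
    rw [hsum (fun k => gf c L k)]
    rfl
  rw [hS, hab, hRR]
  have hfl : ∫ t in Set.Ioc 1 b, deriv (gf c L) t * ∑ k ∈ Icc 0 ⌊t⌋₊, a k =
      ∫ t in Set.Ioc 1 b, gd c L t * RR z t := by
    refine setIntegral_congr_fun measurableSet_Ioc fun t ht => ?_
    simp only [hderiv t (Set.Ioc_subset_Icc_self ht), hRR]
  rw [hfl]
  -- the main integral
  set H : ℝ → ℝ := fun t => gf c L t * (Real.log t / L) -
    Real.cos (Real.pi * c + 2 * Real.pi * c * (Real.log t / L)) / (2 * Real.pi * c) with hH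
  have hHd : ∀ t : ℝ, 0 < t → HasDerivAt H (gd c L t * (Real.log t / L)) t := by
    intro t ht
    have h1 : HasDerivAt (fun t => Real.pi * c + 2 * Real.pi * c * (Real.log t / L))
        (2 * Real.pi * c * (t⁻¹ / L)) t :=
      (((Real.hasDerivAt_log ht.ne').div_const L).const_mul _).const_add _
    have h2 := (h1.cos).div_const (2 * Real.pi * c)
    have h3 := (gf_deriv (c := c) (L := L) ht).mul ((Real.hasDerivAt_log ht.ne').div_const L)
    have h4 := h3.sub h2
    rw [hH]
    have h5 : gd c L t * (Real.log t / L) = gd c L t * (Real.log t / L) + gf c L t * (t⁻¹ / L) -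
        -Real.sin (Real.pi * c + 2 * Real.pi * c * (Real.log t / L)) *
          (2 * Real.pi * c * (t⁻¹ / L)) / (2 * Real.pi * c) := by
      unfold gf
      have : (2 * Real.pi * c) ≠ 0 := by positivity
      field_simp
      ring
    rw [h5]
    exact h4
  have hlogc : ContinuousOn (fun t => Real.log t / L) (Set.Icc 1 b) := by
    refine ContinuousOn.div_const (Real.continuousOn_log.mono ?_) L
    intro t ht
    exact (ne_of_gt (hIcc ht) : t ≠ 0)
  have hmain : ∫ t in Set.Ioc 1 b, gd c L t * (Real.log t / L) = H b - H 1 := by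
    rw [← intervalIntegral.integral_of_le hb]
    refine intervalIntegral.integral_eq_sub_of_hasDerivAt ?_ ?_
    · intro t ht
      rw [Set.uIcc_of_le hb] at ht
      exact hHd t (hIcc ht)
    · refine ContinuousOn.intervalIntegrable ?_
      rw [Set.uIcc_of_le hb]
      exact hgdc.mul hlogc
  have hHb : H b - H 1 = gf c L b * x - II c x := by
    simp only [hH]
    unfold II
    rw [hbx, Real.log_one, mul_div_assoc, div_self hL.ne', mul_one, zero_div, mul_zero, mul_zero,
      add_zero]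
    ring
  -- the error
  have i1 : IntegrableOn (fun t => gd c L t * RR z t) (Set.Ioc 1 b) := by
    have h1 := (integrableOn_mul_sum_Icc a (m := 0) zero_le_one hgdi).mono_set
      Set.Ioc_subset_Icc_self
    refine h1.congr_fun (fun t _ => ?_) measurableSet_Ioc
    simp only [hRR]
  have i2 : IntegrableOn (fun t => gd c L t * (A * (Real.log t / L))) (Set.Ioc 1 b) := by
    refine IntegrableOn.mono_set ?_ Set.Ioc_subset_Icc_self
    exact (hgdc.mul (continuousOn_const.mul hlogc)).integrableOn_Icc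
  have herr : |∫ t in Set.Ioc 1 b, (gd c L t * RR z t - gd c L t * (A * (Real.log t / L)))| ≤
      δ * (2 * Real.pi * x) := by
    have i3 : IntegrableOn (fun t : ℝ => 2 * Real.pi / L * δ * t⁻¹) (Set.Ioc 1 b) := by
      refine IntegrableOn.mono_set ?_ Set.Ioc_subset_Icc_self
      refine ContinuousOn.integrableOn_Icc ?_
      refine continuousOn_const.mul (continuousOn_inv₀.mono ?_)
      intro t ht
      exact (ne_of_gt (hIcc ht) : t ≠ 0)
    have h1 := norm_integral_le_of_norm_le (μ := volume.restrict (Set.Ioc 1 b)) (f := fun t =>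
      (gd c L t * RR z t - gd c L t * (A * (Real.log t / L)))) i3 (by
      refine (ae_restrict_mem measurableSet_Ioc).mono fun t ht => ?_
      have ht0 : 0 < t := hIcc (Set.Ioc_subset_Icc_self ht)
      rw [← mul_sub, Real.norm_eq_abs, abs_mul]
      have h2 := gd_bound hc0.le hc.le hL ht0
      have h3 := hA t ht.1.le ht.2
      calc |gd c L t| * |RR z t - A * (Real.log t / L)| ≤ (2 * Real.pi / L * t⁻¹) * δ :=
            mul_le_mul h2 h3 (abs_nonneg _) (by positivity)
        _ = 2 * Real.pi / L * δ * t⁻¹ := by ring)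
    rw [Real.norm_eq_abs] at h1
    refine h1.trans (le_of_eq ?_)
    rw [← intervalIntegral.integral_of_le hb, intervalIntegral.integral_const_mul,
      integral_inv_of_pos one_pos hb0, div_one, hbx]
    field_simp
  have hsplit : ∫ t in Set.Ioc 1 b, gd c L t * RR z t =
      (∫ t in Set.Ioc 1 b, (gd c L t * RR z t - gd c L t * (A * (Real.log t / L)))) +
        A * (gf c L b * x - II c x) := by
    rw [integral_sub i1 i2, ← hHb, ← hmain, ← integral_const_mul]
    have : ∫ t in Set.Ioc 1 b, gd c L t * (A * (Real.log t / L)) =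
        ∫ t in Set.Ioc 1 b, A * (gd c L t * (Real.log t / L)) := by
      congr 1
      funext t
      ring
    rw [this]
    ring
  rw [hsplit]
  have h6 := (abs_le.1 herr).2
  have h7 : |gf c L b * (RR z b - A * x)| ≤ δ := by
    rw [abs_mul]
    have h8 := hA b hb le_rfl
    rw [hbx, mul_div_assoc, div_self hL.ne', mul_one] at h8
    calc _ ≤ 1 * δ := mul_le_mul (gf_bound _ _ _) h8 (abs_nonneg _) zero_le_one
      _ = δ := one_mul _
  have h9 := (abs_le.1 h7).1
  have h10 : gf c L b * RR z b = gf c L b * (RR z b - A * x) + A * (gf c L b * x) := by ring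
  rw [h10]
  nlinarith

open Classical in
theorem t_ari : S_ari := by
  intro c x hc0 hc hx hx1 h
  obtain ⟨C, hC⟩ := Pool.Agent.Helper923.HMertens.mertens_log
  have hC0 : 0 ≤ C := (abs_nonneg _).trans (hC 1 le_rfl)
  have hI := II_pos hc0 hc hx hx1 h
  set I := II c x with hIdef
  set s := min (1 / 6) (I / 200) with hs
  have hs0 : 0 < s := lt_min (by norm_num) (by linarith)
  have hs6 : s ≤ 1 / 6 := min_le_left _ _
  have hsI : s ≤ I / 200 := min_le_right _ _
  have hs2 : 0 < s ^ 2 := by positivity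
  refine ⟨s ^ 2, I / (20 * s), Real.exp (2 * C / s ^ 2 + 1 / s + 24 / (I * s ^ 2) + 2 / s ^ 2 + 1),
    hs2, by nlinarith, by positivity, fun T hT => ?_⟩
  have hT0 : 0 < T := lt_of_lt_of_le (Real.exp_pos _) hT
  have hL1 : 2 * C / s ^ 2 + 1 / s + 24 / (I * s ^ 2) + 2 / s ^ 2 + 1 ≤ Real.log T := by
    rw [← Real.log_exp (2 * C / s ^ 2 + 1 / s + 24 / (I * s ^ 2) + 2 / s ^ 2 + 1)]
    exact Real.log_le_log (Real.exp_pos _) hT
  have p1 : 0 ≤ 2 * C / s ^ 2 := by positivity
  have p2 : 0 ≤ 1 / s := by positivity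
  have p3 : 0 ≤ 24 / (I * s ^ 2) := by positivity
  have p4 : 0 ≤ 2 / s ^ 2 := by positivity
  have hL0 : 0 < Real.log T := by linarith
  have hT1 : 1 < T := by
    by_contra hcon
    have := Real.log_nonpos hT0.le (not_lt.1 hcon)
    linarith
  have htwo := fun (v : ℝ) (hv : 0 ≤ v) (hv1 : v ≤ 1) =>
    two_sided hC hs0 hs6 hT1 (by linarith) (by linarith) hv hv1
  obtain ⟨L, hL⟩ : ∃ L, L = Real.log T := ⟨_, rfl⟩
  rw [← hL] at hL0 hL1
  obtain ⟨z, hz⟩ : ∃ z, z = T ^ (s ^ 2) := ⟨_, rfl⟩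
  rw [← hL, ← hz] at htwo
  have hzL : s ^ 2 * L ≤ z := by
    rw [hz, Real.rpow_def_of_pos hT0, ← hL]
    have := Real.add_one_le_exp (L * s ^ 2)
    linarith
  have hz2 : 2 ≤ z := by
    have h1 : 2 / s ^ 2 ≤ L := by linarith
    rw [div_le_iff₀ hs2] at h1
    linarith
  have hzI : 24 / I ≤ z := by
    have h1 : 24 / (I * s ^ 2) ≤ L := by linarith
    rw [div_le_iff₀ (by positivity)] at h1
    rw [div_le_iff₀ hI]
    have h2 : s ^ 2 * L * I ≤ z * I := mul_le_mul_of_nonneg_right hzL hI.le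
    linarith
  have hz0 : 0 < z := by linarith
  have hV := VV_one_le (z := z) hT1.le
  obtain ⟨A, hA⟩ : ∃ A, A = L / VV z T := ⟨_, rfl⟩
  rw [← hA] at htwo
  have hA0 : 0 < A := by rw [hA]; exact div_pos hL0 (by linarith)
  have hA1 : 1 / (10 * s) ≤ A := by
    have h1 := (htwo 0 le_rfl zero_le_one).2
    rw [Real.rpow_zero, RR_one, zero_add] at h1
    rw [div_le_iff₀ (by positivity)]
    linarith
  set b := T ^ x with hb
  have hb1 : 1 ≤ b := Real.one_le_rpow hT1.le hx.le
  have hbx : Real.log b = x * L := by rw [hb, Real.log_rpow hT0, ← hL]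
  have hab := abel (c := c) (L := L) (z := z) (b := b) (A := A) (δ := A * (10 * s)) (x := x)
    hc0 hc hL0 hb1 hbx (fun t ht htb => by
      have ht0 : 0 < t := by linarith
      have hv0 : 0 ≤ Real.log t / L := div_nonneg (Real.log_nonneg ht) hL0.le
      have hv1 : Real.log t / L ≤ 1 := by
        rw [div_le_one hL0]
        have h1 := Real.log_le_log ht0 htb
        rw [hbx] at h1
        nlinarith
      have h2 := htwo _ hv0 hv1
      have h3 : T ^ (Real.log t / L) = t := by
        rw [Real.rpow_def_of_pos hT0, ← hL, mul_div_cancel₀ _ hL0.ne', Real.exp_log ht0]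
      rw [h3] at h2
      rw [abs_le]
      have h4 : 0 ≤ A * (10 * s) := by positivity
      constructor
      · linarith [h2.1]
      · linarith [h2.2])
  have hpi := Real.pi_lt_d2
  have hS1 : A * I * (3 / 4) ≤ ∑ l ∈ RS z b, (1 / l : ℝ) * gf c L l := by
    refine le_trans ?_ hab
    have h1 : 1 + 2 * Real.pi * x ≤ 5 := by nlinarith [Real.pi_pos]
    have h2 : A * (10 * s) * (1 + 2 * Real.pi * x) ≤ A * (10 * s) * 5 :=
      mul_le_mul_of_nonneg_left h1 (by positivity)
    have h3 : A * (10 * s) * 5 ≤ A * (I / 4) := by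
      have : 10 * s * 5 ≤ I / 4 := by linarith
      calc A * (10 * s) * 5 = A * (10 * s * 5) := by ring
        _ ≤ A * (I / 4) := mul_le_mul_of_nonneg_left this hA0.le
    linarith
  have hns := nonsqfree (z := z) (X := b) hz2 hb1
  have hRb : RR z b * (2 / z) ≤ A * I * (1 / 4) := by
    have h1 := (htwo x hx.le (by linarith)).2
    rw [← hb] at h1
    have h2 : A * (x + 10 * s) ≤ A * 3 := mul_le_mul_of_nonneg_left (by linarith) hA0.le
    have h3 : 2 / z ≤ I / 12 := by
      rw [div_le_div_iff₀ hz0 (by norm_num)]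
      rw [div_le_iff₀ hI] at hzI
      linarith
    calc RR z b * (2 / z) ≤ (A * 3) * (I / 12) :=
          mul_le_mul (h1.trans h2) h3 (by positivity) (by positivity)
      _ = A * I * (1 / 4) := by ring
  have hfin : ∑ l ∈ RS z b, (1 / l : ℝ) * gf c L l - ∑ l ∈ (RS z b).filter (fun l => ¬ Squarefree l),
      (1 / l : ℝ) ≤ ∑ l ∈ (RS z b).filter (fun l => Squarefree l), (1 / l : ℝ) * gf c L l := by
    rw [← sum_filter_add_sum_filter_not (RS z b) (fun l => Squarefree l)]
    have h1 : ∑ l ∈ (RS z b).filter (fun l => ¬ Squarefree l), (1 / l : ℝ) * gf c L l ≤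
        ∑ l ∈ (RS z b).filter (fun l => ¬ Squarefree l), (1 / l : ℝ) := by
      refine sum_le_sum fun l _ => ?_
      have h2 := (abs_le.1 (gf_bound c L l)).2
      have h3 : (0 : ℝ) ≤ 1 / l := by positivity
      nlinarith
    linarith
  have hgoal : ∑ l ∈ (Finset.Icc 1 ⌊b⌋₊).filter (fun l => Rough (T ^ (s ^ 2)) l ∧ Squarefree l),
      (1 / l : ℝ) * (-Real.sin (Real.pi * c + 2 * Real.pi * c * (Real.log l / Real.log T))) =
      ∑ l ∈ (RS z b).filter (fun l => Squarefree l), (1 / l : ℝ) * gf c L l := by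
    rw [hz, hL]
    unfold RS gf
    rw [filter_filter]
  rw [hgoal]
  have h20 : I / (20 * s) ≤ A * I * (1 / 2) := by
    have h1 : I / (20 * s) = 1 / (10 * s) * I * (1 / 2) := by
      field_simp
      norm_num
    rw [h1]
    exact mul_le_mul_of_nonneg_right (mul_le_mul_of_nonneg_right hA1 hI.le) (by norm_num)
  linarith

end Pool.Agent.W249.PP
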