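import Pool.Agent.W192.PP.Defs
import Pool.Agent.Helper923.HMertens

/-!
# PP-ARI, part 1: sums over rough and smooth numbers
-/

set_option autoImplicit false

namespace Pool.Agent.W249.PP

open Finset Pool.Agent.W192.PP

/-- smooth numbers -/
def Sm (z : ℝ) (n : ℕ) : Prop := n ≠ 0 ∧ ∀ p : ℕ, p.Prime → p ∣ n → (p : ℝ) ≤ z

theorem Sm.mul {z : ℝ} {a b : ℕ} (ha : Sm z a) (hb : Sm z b) : Sm z (a * b) := by
  refine ⟨mul_ne_zero ha.1 hb.1, fun p hp h => ?_⟩
  rcases (hp.dvd_mul).1 h with h | h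
  · exact ha.2 p hp h
  · exact hb.2 p hp h

theorem Sm.of_dvd {z : ℝ} {a b : ℕ} (ha : Sm z a) (h : b ∣ a) : Sm z b :=
  ⟨fun h0 => ha.1 (by rw [h0] at h; exact zero_dvd_iff.1 h),
    fun p hp hpb => ha.2 p hp (hpb.trans h)⟩

theorem rough_mul {z : ℝ} {a b : ℕ} (ha : Rough z a) (hb : Rough z b) : Rough z (a * b) := by
  refine ⟨mul_ne_zero ha.1 hb.1, fun p hp h => ?_⟩
  rcases (hp.dvd_mul).1 h with h | h
  · exact ha.2 p hp h
  · exact hb.2 p hp h

theorem rough_of_dvd {z : ℝ} {a b : ℕ} (ha : Rough z a) (h : b ∣ a) : Rough z b :=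
  ⟨fun h0 => ha.1 (by rw [h0] at h; exact zero_dvd_iff.1 h),
    fun p hp hpb => ha.2 p hp (hpb.trans h)⟩

theorem rough_one (z : ℝ) : Rough z 1 :=
  ⟨one_ne_zero, fun _ hp h => absurd (Nat.dvd_one.1 h) hp.one_lt.ne'⟩

theorem sm_one (z : ℝ) : Sm z 1 :=
  ⟨one_ne_zero, fun _ hp h => absurd (Nat.dvd_one.1 h) hp.one_lt.ne'⟩

/-- existence of the decomposition -/
theorem decomp (z : ℝ) (n : ℕ) (hn : n ≠ 0) : ∃ l a : ℕ, Rough z l ∧ Sm z a ∧ n = l * a := by
  induction n using Nat.recOnMul with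
  | zero => exact absurd rfl hn
  | one => exact ⟨1, 1, rough_one z, sm_one z, rfl⟩
  | prime p hp =>
    rcases le_or_gt (p : ℝ) z with h | h
    · refine ⟨1, p, rough_one z, ⟨hp.ne_zero, fun q hq hqp => ?_⟩, (one_mul p).symm⟩
      rw [(Nat.prime_dvd_prime_iff_eq hq hp).1 hqp]
      exact h
    · refine ⟨p, 1, ⟨hp.ne_zero, fun q hq hqp => ?_⟩, sm_one z, (mul_one p).symm⟩
      rw [(Nat.prime_dvd_prime_iff_eq hq hp).1 hqp]
      exact h
  | mul a b iha ihb =>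
    obtain ⟨l1, a1, h1, h2, h3⟩ := iha (left_ne_zero_of_mul hn)
    obtain ⟨l2, a2, h4, h5, h6⟩ := ihb (right_ne_zero_of_mul hn)
    refine ⟨l1 * l2, a1 * a2, rough_mul h1 h4, h2.mul h5, ?_⟩
    rw [h3, h6]; ring

/-- uniqueness of the decomposition -/
theorem uniq {z : ℝ} {l a l' a' : ℕ} (hl : Rough z l) (ha : Sm z a) (hl' : Rough z l')
    (ha' : Sm z a') (h : l * a = l' * a') : l = l' ∧ a = a' := by
  have cop : ∀ {l a : ℕ}, Rough z l → Sm z a → Nat.Coprime l a := by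
    intro l a hl ha
    rw [Nat.coprime_iff_gcd_eq_one]
    by_contra hg
    obtain ⟨p, hp, hpg⟩ := Nat.exists_prime_and_dvd hg
    have h1 := hl.2 p hp (hpg.trans (Nat.gcd_dvd_left l a))
    have h2 := ha.2 p hp (hpg.trans (Nat.gcd_dvd_right l a))
    linarith
  have h1 : l ∣ l' := (cop hl ha').dvd_of_dvd_mul_right (h ▸ Dvd.intro a rfl)
  have h2 : l' ∣ l := (cop hl' ha).dvd_of_dvd_mul_right (h ▸ Dvd.intro a' rfl)
  have h3 : l = l' := Nat.dvd_antisymm h1 h2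
  refine ⟨h3, ?_⟩
  subst h3
  exact Nat.eq_of_mul_eq_mul_left (Nat.pos_of_ne_zero hl.1) h

open Classical in
/-- rough numbers up to `X` -/
noncomputable def RS (z X : ℝ) : Finset ℕ := (Icc 1 ⌊X⌋₊).filter (fun l => Rough z l)

open Classical in
/-- smooth numbers up to `X` -/
noncomputable def SS (z X : ℝ) : Finset ℕ := (Icc 1 ⌊X⌋₊).filter (fun l => Sm z l)

noncomputable def RR (z X : ℝ) : ℝ := ∑ l ∈ RS z X, (1 / l : ℝ)

noncomputable def VV (z X : ℝ) : ℝ := ∑ l ∈ SS z X, (1 / l : ℝ)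

theorem mem_RS {z X : ℝ} (hX : 0 ≤ X) {l : ℕ} : l ∈ RS z X ↔ 1 ≤ l ∧ (l : ℝ) ≤ X ∧ Rough z l := by
  classical
  unfold RS
  rw [mem_filter, mem_Icc, Nat.le_floor_iff hX, and_assoc]

theorem mem_SS {z X : ℝ} (hX : 0 ≤ X) {l : ℕ} : l ∈ SS z X ↔ 1 ≤ l ∧ (l : ℝ) ≤ X ∧ Sm z l := by
  classical
  unfold SS
  rw [mem_filter, mem_Icc, Nat.le_floor_iff hX, and_assoc]

theorem RR_nonneg (z X : ℝ) : 0 ≤ RR z X := sum_nonneg fun _ _ => by positivity

theorem VV_nonneg (z X : ℝ) : 0 ≤ VV z X := sum_nonneg fun _ _ => by positivity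

theorem VV_one_le {z X : ℝ} (hX : 1 ≤ X) : 1 ≤ VV z X := by
  have h1 : (1 : ℕ) ∈ SS z X := by
    rw [mem_SS (by linarith)]
    exact ⟨le_rfl, by simpa using hX, sm_one z⟩
  have h2 := single_le_sum (f := fun l : ℕ => (1 / l : ℝ)) (s := SS z X)
    (fun _ _ => by positivity) h1
  unfold VV
  simpa using h2

theorem RR_one {z : ℝ} : RR z 1 = 1 := by
  have h1 : RS z 1 = {1} := by
    ext l
    rw [mem_RS (by norm_num), mem_singleton]
    constructor
    · rintro ⟨h1, h2, -⟩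
      have h3 : l ≤ 1 := by exact_mod_cast h2
      omega
    · rintro rfl
      exact ⟨le_rfl, by norm_num, rough_one z⟩
  unfold RR
  rw [h1, sum_singleton]
  norm_num

/-- lower bound -/
theorem lower {z X Y : ℝ} (hX : 1 ≤ X) (hXY : X ≤ Y) : Real.log X ≤ RR z X * VV z Y := by
  have hX0 : 0 ≤ X := by linarith
  have hY0 : 0 ≤ Y := by linarith
  have h0 : Real.log X ≤ ∑ n ∈ Icc 1 ⌊X⌋₊, (1 / n : ℝ) := by
    have h1 := log_add_one_le_harmonic ⌊X⌋₊
    have h2 : Real.log X ≤ Real.log ((⌊X⌋₊ : ℝ) + 1) :=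
      Real.log_le_log (by linarith) (Nat.lt_floor_add_one X).le
    have h3 : ((harmonic ⌊X⌋₊ : ℚ) : ℝ) = ∑ n ∈ Icc 1 ⌊X⌋₊, (1 / n : ℝ) := by
      rw [harmonic_eq_sum_Icc]
      push_cast
      refine sum_congr rfl fun n _ => by rw [one_div]
    rw [← h3]
    exact h2.trans (by exact_mod_cast h1)
  refine h0.trans ?_
  unfold RR VV
  rw [sum_mul_sum, ← sum_product']
  have hex : ∀ n : ℕ, ∃ q : ℕ × ℕ, n ≠ 0 → Rough z q.1 ∧ Sm z q.2 ∧ n = q.1 * q.2 := by
    intro n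
    by_cases hn : n = 0
    · exact ⟨(1, 1), fun h => absurd hn h⟩
    · obtain ⟨l, a, h1, h2, h3⟩ := decomp z n hn
      exact ⟨(l, a), fun _ => ⟨h1, h2, h3⟩⟩
  choose q hq using hex
  have hne : ∀ n ∈ Icc 1 ⌊X⌋₊, n ≠ 0 := fun n hn => by
    have := (mem_Icc.1 hn).1
    omega
  have hinj : Set.InjOn q (Icc 1 ⌊X⌋₊ : Finset ℕ) := by
    intro n hn m hm hnm
    have h1 := (hq n (hne n hn)).2.2
    have h2 := (hq m (hne m hm)).2.2
    rw [h1, h2, hnm]
  have h1 : ∑ n ∈ Icc 1 ⌊X⌋₊, (1 / n : ℝ) =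
      ∑ y ∈ (Icc 1 ⌊X⌋₊).image q, (1 / y.1 : ℝ) * (1 / y.2 : ℝ) := by
    rw [sum_image hinj]
    refine sum_congr rfl fun n hn => ?_
    have h2 := (hq n (hne n hn)).2.2
    conv_lhs => rw [h2]
    push_cast
    rw [one_div_mul_one_div]
  rw [h1]
  refine sum_le_sum_of_subset_of_nonneg ?_ fun _ _ _ => by positivity
  intro y hy
  obtain ⟨n, hn, rfl⟩ := mem_image.1 hy
  obtain ⟨h2, h3, h4⟩ := hq n (hne n hn)
  have hnX : (n : ℝ) ≤ X := (Nat.le_floor_iff hX0).1 (mem_Icc.1 hn).2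
  have h5 : (q n).1 ≤ n := by
    conv_rhs => rw [h4]
    exact Nat.le_mul_of_pos_right _ (Nat.pos_of_ne_zero h3.1)
  have h6 : (q n).2 ≤ n := by
    conv_rhs => rw [h4]
    exact Nat.le_mul_of_pos_left _ (Nat.pos_of_ne_zero h2.1)
  have h5' : ((q n).1 : ℝ) ≤ n := by exact_mod_cast h5
  have h6' : ((q n).2 : ℝ) ≤ n := by exact_mod_cast h6
  rw [mem_product, mem_RS hX0, mem_SS hY0]
  exact ⟨⟨Nat.pos_of_ne_zero h2.1, h5'.trans hnX, h2⟩, ⟨Nat.pos_of_ne_zero h3.1,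
    (h6'.trans hnX).trans hXY, h3⟩⟩

/-- upper bound -/
theorem upper {z X Y : ℝ} (hX : 1 ≤ X) (hY : 1 ≤ Y) :
    RR z X * VV z Y ≤ 1 + Real.log (X * Y) := by
  have hX0 : 0 ≤ X := by linarith
  have hY0 : 0 ≤ Y := by linarith
  have hXY : 1 ≤ X * Y := one_le_mul_of_one_le_of_one_le hX hY
  have h0 : ∑ n ∈ Icc 1 ⌊X * Y⌋₊, (1 / n : ℝ) ≤ 1 + Real.log (X * Y) := by
    have h1 := harmonic_le_one_add_log ⌊X * Y⌋₊
    have h3 : ((harmonic ⌊X * Y⌋₊ : ℚ) : ℝ) = ∑ n ∈ Icc 1 ⌊X * Y⌋₊, (1 / n : ℝ) := by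
      rw [harmonic_eq_sum_Icc]
      push_cast
      refine sum_congr rfl fun n _ => by rw [one_div]
    rw [← h3]
    refine h1.trans ?_
    have h4 : 1 ≤ ⌊X * Y⌋₊ := (Nat.one_le_floor_iff _).2 hXY
    have h5 : Real.log (⌊X * Y⌋₊ : ℝ) ≤ Real.log (X * Y) :=
      Real.log_le_log (by exact_mod_cast h4) (Nat.floor_le (by positivity))
    linarith
  refine le_trans ?_ h0
  unfold RR VV
  rw [sum_mul_sum, ← sum_product']
  have hinj : Set.InjOn (fun y : ℕ × ℕ => y.1 * y.2) (RS z X ×ˢ SS z Y : Finset (ℕ × ℕ)) := by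
    intro y hy y' hy' h
    rw [mem_coe, mem_product, mem_RS hX0, mem_SS hY0] at hy hy'
    have := uniq hy.1.2.2 hy.2.2.2 hy'.1.2.2 hy'.2.2.2 h
    exact Prod.ext this.1 this.2
  have h1 : ∑ y ∈ RS z X ×ˢ SS z Y, (1 / y.1 : ℝ) * (1 / y.2 : ℝ) =
      ∑ n ∈ (RS z X ×ˢ SS z Y).image (fun y : ℕ × ℕ => y.1 * y.2), (1 / n : ℝ) := by
    rw [sum_image hinj]
    refine sum_congr rfl fun y _ => ?_
    push_cast
    rw [one_div_mul_one_div]
  rw [h1]
  refine sum_le_sum_of_subset_of_nonneg ?_ fun _ _ _ => by positivity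
  intro n hn
  obtain ⟨y, hy, rfl⟩ := mem_image.1 hn
  rw [mem_product, mem_RS hX0, mem_SS hY0] at hy
  rw [mem_Icc, Nat.le_floor_iff (by positivity)]
  refine ⟨Nat.mul_pos hy.1.1 hy.2.1, ?_⟩
  push_cast
  exact mul_le_mul hy.1.2.1 hy.2.2.1 (by positivity) hX0

/-- multiples of `p` among the smooth numbers -/
theorem val_sum {z X : ℝ} (hX : 1 ≤ X) {p : ℕ} (hp : p.Prime) :
    (∑ a ∈ SS z X, (a.factorization p : ℝ) * (1 / a)) ≤ VV z X / (p - 1) := by
  have hX0 : 0 ≤ X := by linarith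
  have hp1 : (1 : ℝ) < p := by exact_mod_cast hp.one_lt
  have hp0 : (0 : ℝ) < p := by linarith
  set W := ∑ a ∈ SS z X, (a.factorization p : ℝ) * (1 / a) with hW
  have h1 : W ≤ (VV z X + W) / p := by
    have h2 : W = ∑ a ∈ (SS z X).filter (fun a => p ∣ a), (a.factorization p : ℝ) * (1 / a) := by
      rw [hW, sum_filter]
      refine sum_congr rfl fun a ha => ?_
      by_cases h : p ∣ a
      · rw [if_pos h]
      · rw [if_neg h, Nat.factorization_eq_zero_of_not_dvd h]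
        simp
    have h3 : ∑ a ∈ (SS z X).filter (fun a => p ∣ a), (a.factorization p : ℝ) * (1 / a) =
        ∑ a ∈ ((SS z X).filter (fun a => p ∣ a)).image (fun a => a / p),
          ((1 + a.factorization p : ℝ) * (1 / a)) / p := by
      rw [sum_image]
      · refine sum_congr rfl fun a ha => ?_
        obtain ⟨ha1, b, rfl⟩ := mem_filter.1 ha
        have hb0 : b ≠ 0 := by
          rintro rfl
          rw [mem_SS hX0] at ha1
          omega
        rw [Nat.mul_div_cancel_left b hp.pos, Nat.factorization_mul hp.ne_zero hb0,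
          Finsupp.add_apply, hp.factorization_self]
        push_cast
        have hb' : (b : ℝ) ≠ 0 := by exact_mod_cast hb0
        field_simp
      · intro a ha b hb hab
        have ha' := (mem_filter.1 (mem_coe.1 ha)).2
        have hb' := (mem_filter.1 (mem_coe.1 hb)).2
        obtain ⟨c, rfl⟩ := ha'
        obtain ⟨d, rfl⟩ := hb'
        simp only [Nat.mul_div_cancel_left _ hp.pos] at hab
        rw [hab]
    have h4 : (VV z X + W) / p = ∑ a ∈ SS z X, ((1 + a.factorization p : ℝ) * (1 / a)) / p := by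
      rw [← sum_div, hW]
      unfold VV
      rw [← sum_add_distrib]
      congr 1
      refine sum_congr rfl fun a _ => by ring
    rw [h4]
    conv_lhs => rw [h2, h3]
    refine sum_le_sum_of_subset_of_nonneg ?_ fun _ _ _ => by positivity
    intro b hb
    obtain ⟨a, ha, rfl⟩ := mem_image.1 hb
    obtain ⟨ha1, c, rfl⟩ := mem_filter.1 ha
    rw [Nat.mul_div_cancel_left c hp.pos]
    rw [mem_SS hX0] at ha1 ⊢
    have hc0 : c ≠ 0 := by
      rintro rfl
      omega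
    refine ⟨Nat.pos_of_ne_zero hc0, ?_, ha1.2.2.of_dvd (Dvd.intro_left p rfl)⟩
    have h5 : (c : ℝ) ≤ ((p * c : ℕ) : ℝ) := by
      exact_mod_cast Nat.le_mul_of_pos_left c hp.pos
    exact h5.trans ha1.2.1
  rw [le_div_iff₀ (by linarith)]
  rw [le_div_iff₀ hp0] at h1
  linarith

/-- the sum of `log a / a` -/
theorem log_sum {z X : ℝ} (hX : 1 ≤ X) (hz : 1 ≤ z) : (∑ a ∈ SS z X, Real.log a * (1 / a)) ≤
    2 * VV z X * ∑ p ∈ (Icc 1 ⌊z⌋₊).filter Nat.Prime, Real.log p / p := by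
  have hX0 : 0 ≤ X := by linarith
  have h1 : ∀ a ∈ SS z X, Real.log a * (1 / a) =
      ∑ p ∈ (Icc 1 ⌊z⌋₊).filter Nat.Prime, ((a.factorization p : ℝ) * (1 / a)) * Real.log p := by
    intro a ha
    rw [mem_SS hX0] at ha
    rw [Real.log_nat_eq_sum_factorization, Finsupp.sum, sum_mul]
    refine Eq.trans (b := ∑ p ∈ a.factorization.support,
      ((a.factorization p : ℝ) * (1 / a)) * Real.log p) ?_ (sum_subset ?_ ?_)
    · refine sum_congr rfl fun p _ => by ring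
    · intro p hp
      rw [Nat.support_factorization, Nat.mem_primeFactors] at hp
      rw [mem_filter, mem_Icc, Nat.le_floor_iff (by linarith)]
      exact ⟨⟨hp.1.one_le, ha.2.2.2 p hp.1 hp.2.1⟩, hp.1⟩
    · intro p _ hp
      rw [Finsupp.notMem_support_iff] at hp
      rw [hp]
      simp
  rw [sum_congr rfl h1, sum_comm, mul_sum]
  refine sum_le_sum fun p hp => ?_
  rw [mem_filter] at hp
  have hp2 : (2 : ℝ) ≤ p := by exact_mod_cast hp.2.two_le
  rw [← sum_mul]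
  have h2 := val_sum (z := z) hX hp.2
  have hlog : 0 ≤ Real.log p := Real.log_nonneg (by linarith)
  refine (mul_le_mul_of_nonneg_right h2 hlog).trans ?_
  have h3 : VV z X / (p - 1) ≤ VV z X * (2 / p) := by
    rw [div_eq_mul_inv]
    refine mul_le_mul_of_nonneg_left ?_ (VV_nonneg z X)
    rw [inv_eq_one_div, div_le_div_iff₀ (by linarith) (by linarith)]
    linarith
  calc VV z X / (p - 1) * Real.log p ≤ VV z X * (2 / p) * Real.log p :=
        mul_le_mul_of_nonneg_right h3 hlog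
    _ = 2 * VV z X * (Real.log p / p) := by ring

/-- truncation of the smooth sum -/
theorem trunc {z X Y : ℝ} (hY : 1 < Y) (hYX : Y ≤ X) (hz : 1 ≤ z) :
    VV z X - VV z Y ≤ 2 * VV z X * (∑ p ∈ (Icc 1 ⌊z⌋₊).filter Nat.Prime, Real.log p / p) /
      Real.log Y := by
  have hX0 : 0 ≤ X := by linarith
  have hY0 : 0 ≤ Y := by linarith
  have hlY : 0 < Real.log Y := Real.log_pos hY
  rw [le_div_iff₀ hlY]
  refine le_trans ?_ (log_sum (by linarith) hz)
  have hsub : SS z Y ⊆ SS z X := by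
    intro a ha
    rw [mem_SS hY0] at ha
    rw [mem_SS hX0]
    exact ⟨ha.1, ha.2.1.trans hYX, ha.2.2⟩
  have h1 : VV z X - VV z Y = ∑ a ∈ SS z X \ SS z Y, (1 / a : ℝ) := by
    unfold VV
    rw [← sum_sdiff hsub]
    ring
  rw [h1, sum_mul]
  refine le_trans (sum_le_sum (g := fun a : ℕ => Real.log a * (1 / a)) fun a ha => ?_) ?_
  · rw [mem_sdiff, mem_SS hX0, mem_SS hY0] at ha
    have h2 : Y < a := by
      by_contra hcon
      exact ha.2 ⟨ha.1.1, not_lt.1 hcon, ha.1.2.2⟩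
    rw [mul_comm]
    exact mul_le_mul_of_nonneg_right (Real.log_le_log (by linarith) h2.le) (by positivity)
  · refine sum_le_sum_of_subset_of_nonneg sdiff_subset fun a ha _ => ?_
    rw [mem_SS hX0] at ha
    have : 0 ≤ Real.log a := Real.log_nonneg (by exact_mod_cast ha.1)
    positivity

end Pool.Agent.W249.PP
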