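import Pool.Agent.W249.PP.Ari1

/-!
# PP-ARI, part 2: two-sided bound, squarefree correction, Abel summation
-/

set_option autoImplicit false

namespace Pool.Agent.W249.PP

open Finset Pool.Agent.W192.PP MeasureTheory

/-- two-sided bound for the rough sums -/
theorem two_sided {C : ℝ} (hC : ∀ N : ℕ, 1 ≤ N →
    |∑ p ∈ (Finset.Icc 1 N).filter Nat.Prime, Real.log p / p - Real.log N| ≤ C)
    {s T : ℝ} (hs : 0 < s) (hs6 : s ≤ 1 / 6) (hT : 1 < T) (h1 : 2 * C / s ^ 2 ≤ Real.log T)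
    (h2 : 1 / s ≤ Real.log T) {v : ℝ} (hv : 0 ≤ v) (hv1 : v ≤ 1) :
    Real.log T / VV (T ^ (s ^ 2)) T * v ≤ RR (T ^ (s ^ 2)) (T ^ v) ∧
      RR (T ^ (s ^ 2)) (T ^ v) ≤ Real.log T / VV (T ^ (s ^ 2)) T * (v + 10 * s) := by
  set L := Real.log T with hL
  set z := T ^ (s ^ 2) with hz
  have hT0 : 0 < T := by linarith
  have hL0 : 0 < L := Real.log_pos hT
  have hC0 : 0 ≤ C := (abs_nonneg _).trans (hC 1 le_rfl)
  have hz1 : 1 ≤ z := Real.one_le_rpow hT.le (by positivity)
  have hV1 := VV_one_le (z := z) hT.le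
  have hV0 : 0 < VV z T := by linarith
  have hTv : 1 ≤ T ^ v := Real.one_le_rpow hT.le hv
  have hTvT : T ^ v ≤ T := by
    conv_rhs => rw [← Real.rpow_one T]
    exact Real.rpow_le_rpow_of_exponent_le hT.le hv1
  constructor
  · have h3 := lower (z := z) hTv hTvT
    rw [Real.log_rpow hT0] at h3
    rw [div_mul_eq_mul_div, div_le_iff₀ hV0]
    linarith
  · have hTs : 1 < T ^ s := Real.one_lt_rpow hT hs
    have hTsT : T ^ s ≤ T := by
      conv_rhs => rw [← Real.rpow_one T]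
      exact Real.rpow_le_rpow_of_exponent_le hT.le (by linarith)
    have hmer : (∑ p ∈ (Icc 1 ⌊z⌋₊).filter Nat.Prime, Real.log p / p) ≤ s ^ 2 * L + C := by
      have h3 : 1 ≤ ⌊z⌋₊ := (Nat.one_le_floor_iff _).2 hz1
      have h4 := (abs_le.1 (hC _ h3)).2
      have h5 : Real.log (⌊z⌋₊ : ℝ) ≤ Real.log z :=
        Real.log_le_log (by exact_mod_cast h3) (Nat.floor_le (by linarith))
      have h6 : Real.log z = s ^ 2 * L := by rw [hz, Real.log_rpow hT0]
      linarith
    have htr := trunc (z := z) hTs hTsT hz1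
    rw [Real.log_rpow hT0, ← hL] at htr
    have hsL : 0 < s * L := mul_pos hs hL0
    have h3 : VV z T - VV z (T ^ s) ≤ 3 * s * VV z T := by
      refine htr.trans ?_
      rw [div_le_iff₀ hsL]
      have h4 : 2 * C ≤ s ^ 2 * L := by
        rw [div_le_iff₀ (by positivity)] at h1
        linarith
      have h5 : 2 * VV z T * (∑ p ∈ (Icc 1 ⌊z⌋₊).filter Nat.Prime, Real.log p / p) ≤
          2 * VV z T * (s ^ 2 * L + C) := mul_le_mul_of_nonneg_left hmer (by linarith)
      refine h5.trans ?_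
      have h6 : s ^ 2 * L + C ≤ 3 / 2 * s ^ 2 * L := by linarith
      calc 2 * VV z T * (s ^ 2 * L + C) ≤ 2 * VV z T * (3 / 2 * s ^ 2 * L) :=
            mul_le_mul_of_nonneg_left h6 (by linarith)
        _ = 3 * s * VV z T * (s * L) := by ring
    have hup := upper (z := z) hTv hTs.le
    rw [← Real.rpow_add hT0, Real.log_rpow hT0, ← hL] at hup
    set R := RR z (T ^ v) with hR
    have hR0 : 0 ≤ R := RR_nonneg _ _
    have h4 : R * VV z T * (1 - 3 * s) ≤ 1 + (v + s) * L := by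
      refine le_trans ?_ hup
      calc R * VV z T * (1 - 3 * s) = R * (VV z T - 3 * s * VV z T) := by ring
        _ ≤ R * VV z (T ^ s) := mul_le_mul_of_nonneg_left (by linarith) hR0
    have h5 : R * VV z T ≤ (1 + (v + s) * L) * (1 + 6 * s) := by
      have h6 : 1 ≤ (1 - 3 * s) * (1 + 6 * s) := by nlinarith
      have h7 : 0 ≤ R * VV z T := mul_nonneg hR0 hV0.le
      calc R * VV z T ≤ R * VV z T * ((1 - 3 * s) * (1 + 6 * s)) := le_mul_of_one_le_right h7 h6
        _ = R * VV z T * (1 - 3 * s) * (1 + 6 * s) := by ring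
        _ ≤ (1 + (v + s) * L) * (1 + 6 * s) := mul_le_mul_of_nonneg_right h4 (by linarith)
    have h6 : 1 ≤ s * L := by
      rw [div_le_iff₀ hs] at h2
      linarith
    have h7 : (1 + (v + s) * L) * (1 + 6 * s) ≤ L * (v + 10 * s) := by
      have h8 : 1 + (v + s) * L ≤ (v + 2 * s) * L := by linarith
      refine (mul_le_mul_of_nonneg_right h8 (by linarith)).trans ?_
      have h9 : (v + 2 * s) * (1 + 6 * s) ≤ v + 10 * s := by nlinarith [mul_nonneg hs.le hv]
      calc (v + 2 * s) * L * (1 + 6 * s) = L * ((v + 2 * s) * (1 + 6 * s)) := by ring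
        _ ≤ L * (v + 10 * s) := mul_le_mul_of_nonneg_left h9 hL0.le
    rw [div_mul_eq_mul_div, le_div_iff₀ hV0]
    exact h5.trans h7

open Classical in
/-- the rough numbers which are not squarefree -/
theorem nonsqfree {z X : ℝ} (hz : 2 ≤ z) (hX : 1 ≤ X) :
    ∑ l ∈ (RS z X).filter (fun l => ¬ Squarefree l), (1 / l : ℝ) ≤ RR z X * (2 / z) := by
  have hX0 : 0 ≤ X := by linarith
  have hex : ∀ l : ℕ, ∃ d : ℕ, l ∈ (RS z X).filter (fun l => ¬ Squarefree l) →
      d * d ∣ l ∧ z < d := by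
    intro l
    by_cases h : l ∈ (RS z X).filter (fun l => ¬ Squarefree l)
    · obtain ⟨h1, h2⟩ := mem_filter.1 h
      rw [mem_RS hX0] at h1
      rw [Nat.squarefree_iff_prime_squarefree] at h2
      push Not at h2
      obtain ⟨p, hp, hpl⟩ := h2
      exact ⟨p, fun _ => ⟨hpl, h1.2.2.2 p hp ((dvd_mul_right p p).trans hpl)⟩⟩
    · exact ⟨0, fun h' => absurd h' h⟩
  choose d hd using hex
  set F := (RS z X).filter (fun l => ¬ Squarefree l) with hF
  have hinj : Set.InjOn (fun l => (d l, l / (d l * d l))) F := by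
    intro a ha b hb hab
    have h1 := congrArg Prod.fst hab
    have h2 := congrArg Prod.snd hab
    simp only at h1 h2
    obtain ⟨u, hu⟩ := (hd a ha).1
    obtain ⟨w, hw⟩ := (hd b hb).1
    have hda : 0 < d a := by
      have h3 := (hd a ha).2
      have h4 : (0 : ℝ) < d a := by linarith
      exact_mod_cast h4
    rw [← h1] at h2 hw
    have h5 : a / (d a * d a) = u := Nat.div_eq_of_eq_mul_right (Nat.mul_pos hda hda) hu
    have h6 : b / (d a * d a) = w := Nat.div_eq_of_eq_mul_right (Nat.mul_pos hda hda) hw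
    rw [h5, h6] at h2
    rw [hu, hw, h2]
  have h1 : ∑ l ∈ F, (1 / l : ℝ) =
      ∑ y ∈ F.image (fun l => (d l, l / (d l * d l))), (1 / y.2 : ℝ) * ((y.1 : ℝ) ^ 2)⁻¹ := by
    rw [sum_image hinj]
    refine sum_congr rfl fun l hl => ?_
    obtain ⟨u, hu⟩ := (hd l hl).1
    have hda : 0 < d l := by
      have h3 := (hd l hl).2
      have h4 : (0 : ℝ) < d l := by linarith
      exact_mod_cast h4
    have h5 : l / (d l * d l) = u := Nat.div_eq_of_eq_mul_right (Nat.mul_pos hda hda) hu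
    simp only [h5]
    conv_lhs => rw [hu]
    push_cast
    rw [one_div, one_div, mul_inv, mul_inv]
    ring
  have hk1 : 2 ≤ ⌊z⌋₊ := Nat.le_floor (by exact_mod_cast hz)
  rw [h1]
  by_cases hkn : ⌊z⌋₊ ≤ ⌊X⌋₊
  · have h2 : ∑ y ∈ F.image (fun l => (d l, l / (d l * d l))), (1 / y.2 : ℝ) * ((y.1 : ℝ) ^ 2)⁻¹ ≤
        ∑ y ∈ (Ioc ⌊z⌋₊ ⌊X⌋₊) ×ˢ RS z X, (1 / y.2 : ℝ) * ((y.1 : ℝ) ^ 2)⁻¹ := by
      refine sum_le_sum_of_subset_of_nonneg ?_ fun _ _ _ => by positivity
      intro y hy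
      obtain ⟨l, hl, rfl⟩ := mem_image.1 hy
      obtain ⟨u, hu⟩ := (hd l hl).1
      have hdz := (hd l hl).2
      have hda : 0 < d l := by
        have h4 : (0 : ℝ) < d l := by linarith
        exact_mod_cast h4
      have h5 : l / (d l * d l) = u := Nat.div_eq_of_eq_mul_right (Nat.mul_pos hda hda) hu
      have hl1 := (mem_filter.1 hl).1
      rw [mem_RS hX0] at hl1
      have hu0 : 0 < u := by
        rcases Nat.eq_zero_or_pos u with h | h
        · rw [h, mul_zero] at hu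
          omega
        · exact h
      have hdl : d l ≤ l := by
        conv_rhs => rw [hu, mul_assoc]
        exact Nat.le_mul_of_pos_right _ (Nat.mul_pos hda hu0)
      have hul : u ≤ l := by
        conv_rhs => rw [hu]
        exact Nat.le_mul_of_pos_left _ (Nat.mul_pos hda hda)
      simp only [h5]
      rw [mem_product, mem_Ioc, mem_RS hX0, Nat.floor_lt (by linarith), Nat.le_floor_iff hX0]
      refine ⟨⟨hdz, ?_⟩, hu0, ?_, rough_of_dvd hl1.2.2 (Dvd.intro_left _ hu.symm)⟩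
      · exact le_trans (by exact_mod_cast hdl) hl1.2.1
      · exact le_trans (by exact_mod_cast hul) hl1.2.1
    refine h2.trans ?_
    rw [sum_product_right' (f := fun a b : ℕ => (1 / b : ℝ) * ((a : ℝ) ^ 2)⁻¹)]
    have h3 : ∑ y ∈ RS z X, ∑ x ∈ Ioc ⌊z⌋₊ ⌊X⌋₊, (1 / y : ℝ) * ((x : ℝ) ^ 2)⁻¹ =
        RR z X * ∑ x ∈ Ioc ⌊z⌋₊ ⌊X⌋₊, ((x : ℝ) ^ 2)⁻¹ := by
      unfold RR
      rw [sum_mul]
      exact sum_congr rfl fun y _ => by rw [mul_sum]
    rw [h3]
    refine mul_le_mul_of_nonneg_left ?_ (RR_nonneg z X)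
    have h4 := sum_Ioc_inv_sq_le_sub (α := ℝ) (k := ⌊z⌋₊) (n := ⌊X⌋₊) (by omega) hkn
    refine h4.trans ?_
    have h5 : (0 : ℝ) ≤ ((⌊X⌋₊ : ℕ) : ℝ)⁻¹ := by positivity
    have h6 : z / 2 ≤ (⌊z⌋₊ : ℝ) := by
      have := Nat.sub_one_lt_floor z
      linarith
    have h7 : ((⌊z⌋₊ : ℕ) : ℝ)⁻¹ ≤ 2 / z := by
      rw [inv_eq_one_div, div_le_div_iff₀ (by linarith) (by linarith)]
      linarith
    linarith
  · have h2 : F.image (fun l => (d l, l / (d l * d l))) = ∅ := by
      rw [image_eq_empty, eq_empty_iff_forall_notMem]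
      intro l hl
      have hdz := (hd l hl).2
      obtain ⟨u, hu⟩ := (hd l hl).1
      have hda : 0 < d l := by
        have h4 : (0 : ℝ) < d l := by linarith
        exact_mod_cast h4
      have hl1 := (mem_filter.1 hl).1
      rw [mem_RS hX0] at hl1
      have hu0 : 0 < u := by
        rcases Nat.eq_zero_or_pos u with h | h
        · rw [h, mul_zero] at hu
          omega
        · exact h
      have hdl : d l ≤ l := by
        conv_rhs => rw [hu, mul_assoc]
        exact Nat.le_mul_of_pos_right _ (Nat.mul_pos hda hu0)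
      have h5 : (d l : ℝ) ≤ X := le_trans (by exact_mod_cast hdl) hl1.2.1
      exact hkn (Nat.floor_le_floor (by linarith))
    rw [h2, sum_empty]
    exact mul_nonneg (RR_nonneg z X) (by positivity)

end Pool.Agent.W249.PP
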